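import Mathlib

set_option autoImplicit false
open Finset Filter Topology

namespace Pool.Agent.Results.MP_8b0535_co.NoAdmissible

/-- Neighbourhood in `B` of the vertex `u` of `A`; `R u y` means that `u` and `y` are adjacent. -/
def Nb {A B : Type} (R : A → B → Prop) (u : A) : Set B := {y | R u y}

/-- The sequence of bipartite graphs with parts `Fin m` and `Fin (B m)` and adjacency relation `R m`
is admissible for `b2` (conditions 1 to 4 of the problem, for all sufficiently large `m`). -/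
structure Admissible (b2 : ℕ → ℝ) (B : ℕ → ℕ) (R : ∀ m, Fin m → Fin (B m) → Prop) : Prop where
  /-- degrees in `A` are `(1 + o(1)) m`, uniformly -/
  deg : ∀ ε : ℝ, 0 < ε → ∀ᶠ m : ℕ in atTop, ∀ u : Fin m,
    |((Nb (R m) u).ncard : ℝ) / m - 1| ≤ ε
  /-- pairs in `A` have `(1 + o(1)) b2` common neighbours, uniformly -/
  pair : ∀ ε : ℝ, 0 < ε → ∀ᶠ m : ℕ in atTop, ∀ u v : Fin m, u ≠ v →
    |((Nb (R m) u ∩ Nb (R m) v).ncard : ℝ) / b2 m - 1| ≤ ε
  /-- triples in `A` have exactly one common neighbour -/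
  triple : ∀ᶠ m : ℕ in atTop, ∀ u v w : Fin m, u ≠ v → u ≠ w → v ≠ w →
    (Nb (R m) u ∩ Nb (R m) v ∩ Nb (R m) w).ncard = 1

theorem uniq {A B : Type} (R : A → B → Prop)
    (hT : ∀ u v w : A, u ≠ v → u ≠ w → v ≠ w → (Nb R u ∩ Nb R v ∩ Nb R w).ncard = 1)
    {u v w : A} (h1 : u ≠ v) (h2 : u ≠ w) (h3 : v ≠ w) {y y' : B}
    (hy : R u y ∧ R v y ∧ R w y) (hy' : R u y' ∧ R v y' ∧ R w y') : y = y' := by
  obtain ⟨a, ha⟩ := Set.ncard_eq_one.1 (hT u v w h1 h2 h3)
  have e1 : y ∈ Nb R u ∩ Nb R v ∩ Nb R w := ⟨⟨hy.1, hy.2.1⟩, hy.2.2⟩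
  have e2 : y' ∈ Nb R u ∩ Nb R v ∩ Nb R w := ⟨⟨hy'.1, hy'.2.1⟩, hy'.2.2⟩
  rw [ha] at e1 e2
  rw [e1, e2]

theorem exst {A B : Type} (R : A → B → Prop)
    (hT : ∀ u v w : A, u ≠ v → u ≠ w → v ≠ w → (Nb R u ∩ Nb R v ∩ Nb R w).ncard = 1)
    {u v w : A} (h1 : u ≠ v) (h2 : u ≠ w) (h3 : v ≠ w) : ∃ y, R u y ∧ R v y ∧ R w y := by
  obtain ⟨a, ha⟩ := Set.ncard_eq_one.1 (hT u v w h1 h2 h3)
  have e1 : a ∈ Nb R u ∩ Nb R v ∩ Nb R w := by rw [ha]; rfl
  exact ⟨a, e1.1.1, e1.1.2, e1.2⟩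

/-- Either some vertex of `B` is joined to all of `A`, or `m - 2 ≤ D (D - 1)`. -/
theorem core {m b : ℕ} (hm : 3 ≤ m) (R : Fin m → Fin b → Prop)
    (hT : ∀ u v w, u ≠ v → u ≠ w → v ≠ w → (Nb R u ∩ Nb R v ∩ Nb R w).ncard = 1)
    (D : ℕ) (hD : ∀ u v, u ≠ v → (Nb R u ∩ Nb R v).ncard ≤ D)
    (hno : ∀ y, ∃ z, ¬ R z y) : m ≤ 2 + D * D := by
  classical
  have h01 : (⟨0, by omega⟩ : Fin m) ≠ ⟨1, by omega⟩ := by simp
  set u : Fin m := ⟨0, by omega⟩
  set v : Fin m := ⟨1, by omega⟩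
  -- each line through u has at most D further points
  have hline : ∀ y, R u y → R v y →
      (Finset.univ.filter (fun w => w ≠ u ∧ w ≠ v ∧ R w y)).card ≤ D := by
    intro y huy hvy
    obtain ⟨z, hz⟩ := hno y
    have hzu : z ≠ u := fun h => hz (h ▸ huy)
    have hex : ∀ w ∈ Finset.univ.filter (fun w => w ≠ u ∧ w ≠ v ∧ R w y),
        ∃ y', R u y' ∧ R z y' ∧ R w y' := by
      intro w hw
      simp only [Finset.mem_filter, Finset.mem_univ, true_and] at hw
      exact exst R hT hzu.symm hw.1.symm (fun h => hz (h ▸ hw.2.2))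
    have : Nonempty (Fin b) := ⟨y⟩
    choose! f hf using hex
    have hcard : (Finset.univ.filter (fun w => w ≠ u ∧ w ≠ v ∧ R w y)).card ≤
        (Finset.univ.filter (fun y' => R u y' ∧ R z y')).card := by
      refine Finset.card_le_card_of_injOn f ?_ ?_
      · intro w hw
        have := hf w hw
        simp only [Finset.coe_filter, Finset.mem_univ, true_and, Set.mem_ofPred_eq]
        exact ⟨this.1, this.2.1⟩
      · intro w hw w' hw' hww
        by_contra hne
        have h1 := hf w hw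
        have h2 := hf w' hw'
        rw [← hww] at h2
        rw [Finset.mem_coe] at hw hw'
        simp only [Finset.mem_filter, Finset.mem_univ, true_and] at hw hw'
        have h3 := uniq R hT hw.1.symm hw'.1.symm hne ⟨huy, hw.2.2, hw'.2.2⟩
          ⟨h1.1, h1.2.2, h2.2.2⟩
        exact hz (h3 ▸ h1.2.1)
    have h4 := hD u z hzu.symm
    rw [Set.ncard_eq_toFinset_card'] at h4
    refine hcard.trans (le_trans (Finset.card_le_card ?_) h4)
    intro y' hy'
    rw [Set.mem_toFinset]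
    simp only [Finset.mem_filter, Finset.mem_univ, true_and] at hy'
    exact hy'
  have hcov : (Finset.univ.filter (fun w => w ≠ u ∧ w ≠ v)) ⊆
      (Finset.univ.filter (fun y => R u y ∧ R v y)).biUnion
        (fun y => Finset.univ.filter (fun w => w ≠ u ∧ w ≠ v ∧ R w y)) := by
    intro w hw
    simp only [Finset.mem_filter, Finset.mem_univ, true_and] at hw
    obtain ⟨y, hy⟩ := exst R hT h01 hw.1.symm hw.2.symm
    refine Finset.mem_biUnion.2 ⟨y, ?_, ?_⟩
    · simp only [Finset.mem_filter, Finset.mem_univ, true_and]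
      exact ⟨hy.1, hy.2.1⟩
    · simp only [Finset.mem_filter, Finset.mem_univ, true_and]
      exact ⟨hw.1, hw.2, hy.2.2⟩
  have h1 := (Finset.card_le_card hcov).trans (Finset.card_biUnion_le_card_mul _ _ D (by
    intro y hy
    simp only [Finset.mem_filter, Finset.mem_univ, true_and] at hy
    exact hline y hy.1 hy.2))
  have h2 : (Finset.univ.filter (fun y => R u y ∧ R v y)).card ≤ D := by
    have h4 := hD u v h01
    rw [Set.ncard_eq_toFinset_card'] at h4
    refine le_trans (Finset.card_le_card ?_) h4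
    intro y' hy'
    rw [Set.mem_toFinset]
    simp only [Finset.mem_filter, Finset.mem_univ, true_and] at hy'
    exact hy'
  have h3 : m ≤ (Finset.univ.filter (fun w : Fin m => w ≠ u ∧ w ≠ v)).card + 2 := by
    have h5 : (Finset.univ : Finset (Fin m)) ⊆
        (Finset.univ.filter (fun w : Fin m => w ≠ u ∧ w ≠ v)) ∪ {u, v} := by
      intro w _
      simp only [Finset.mem_union, Finset.mem_filter, Finset.mem_univ, true_and,
        Finset.mem_insert, Finset.mem_singleton]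
      tauto
    have h6 := (Finset.card_le_card h5).trans (Finset.card_union_le _ _)
    rw [Finset.card_univ, Fintype.card_fin] at h6
    have h7 : ({u, v} : Finset (Fin m)).card ≤ 2 := Finset.card_le_two
    omega
  have h4 : (Finset.univ.filter (fun y => R u y ∧ R v y)).card * D ≤ D * D :=
    Nat.mul_le_mul_right _ h2
  omega

/-- If some vertex of `B` is joined to all of `A`, degrees are large. -/
theorem full {m b : ℕ} (R : Fin m → Fin b → Prop)
    (hT : ∀ u v w, u ≠ v → u ≠ w → v ≠ w → (Nb R u ∩ Nb R v ∩ Nb R w).ncard = 1)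
    (L : ℕ) (hL : ∀ u v, u ≠ v → L + 1 ≤ (Nb R u ∩ Nb R v).ncard)
    (y0 : Fin b) (hy0 : ∀ z, R z y0) (u : Fin m) : (m - 1) * L ≤ (Nb R u).ncard := by
  classical
  have h1 : ∀ v ∈ (Finset.univ.erase u), L ≤
      (Finset.univ.filter (fun y => y ≠ y0 ∧ R u y ∧ R v y)).card := by
    intro v hv
    have hv' : v ≠ u := Finset.ne_of_mem_erase hv
    have h2 := hL u v hv'.symm
    rw [Set.ncard_eq_toFinset_card'] at h2
    have h3 : (Nb R u ∩ Nb R v).toFinset ⊆
        insert y0 (Finset.univ.filter (fun y => y ≠ y0 ∧ R u y ∧ R v y)) := by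
      intro y hy
      by_cases h : y = y0
      · exact Finset.mem_insert.2 (Or.inl h)
      · refine Finset.mem_insert.2 (Or.inr ?_)
        have hy' : y ∈ Nb R u ∩ Nb R v := Set.mem_toFinset.1 hy
        simp only [Finset.mem_filter, Finset.mem_univ, true_and]
        exact ⟨h, hy'⟩
    have h4 := (Finset.card_le_card h3).trans (Finset.card_insert_le _ _)
    omega
  have hdisj : Set.PairwiseDisjoint ((Finset.univ.erase u : Finset (Fin m)) : Set (Fin m))
      (fun v => Finset.univ.filter (fun y => y ≠ y0 ∧ R u y ∧ R v y)) := by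
    intro v hv w hw hvw
    rw [Function.onFun, Finset.disjoint_left]
    intro y hy hy'
    simp only [Finset.mem_filter, Finset.mem_univ, true_and] at hy hy'
    have hv' : v ≠ u := Finset.ne_of_mem_erase (Finset.mem_coe.1 hv)
    have hw' : w ≠ u := Finset.ne_of_mem_erase (Finset.mem_coe.1 hw)
    exact hy.1 (uniq R hT hv'.symm hw'.symm hvw ⟨hy.2.1, hy.2.2, hy'.2.2⟩
      ⟨hy0 _, hy0 _, hy0 _⟩)
  have h5 : ((Finset.univ.erase u).biUnion
      (fun v => Finset.univ.filter (fun y => y ≠ y0 ∧ R u y ∧ R v y))).card ≤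
      (Nb R u).ncard := by
    rw [Set.ncard_eq_toFinset_card']
    refine Finset.card_le_card ?_
    intro y hy
    obtain ⟨v, _, hv⟩ := Finset.mem_biUnion.1 hy
    simp only [Finset.mem_filter, Finset.mem_univ, true_and] at hv
    rw [Set.mem_toFinset]
    exact hv.2.1
  rw [Finset.card_biUnion hdisj] at h5
  have h6 := Finset.card_nsmul_le_sum _ _ _ h1
  rw [Finset.card_erase_of_mem (Finset.mem_univ u), Finset.card_univ, Fintype.card_fin,
    smul_eq_mul] at h6
  exact h6.trans h5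

theorem strong (b2 : ℕ → ℝ) (hb : Tendsto b2 atTop atTop)
    (hb' : Tendsto (fun m : ℕ => b2 m / Real.sqrt m) atTop (𝓝 0)) (C : ℝ) (hC : 1 ≤ C) :
    ∀ᶠ m : ℕ in atTop, ∀ (b : ℕ) (R : Fin m → Fin b → Prop),
      ¬ ((∀ u, ((Nb R u).ncard : ℝ) ≤ C * m) ∧
        (∀ u v, u ≠ v → b2 m / C ≤ ((Nb R u ∩ Nb R v).ncard : ℝ) ∧
          ((Nb R u ∩ Nb R v).ncard : ℝ) ≤ C * b2 m) ∧
        (∀ u v w, u ≠ v → u ≠ w → v ≠ w → (Nb R u ∩ Nb R v ∩ Nb R w).ncard = 1)) := by
  have hCpos : 0 < C := by linarith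
  have hδ : (0 : ℝ) < 1 / (2 * C) := by positivity
  filter_upwards [hb'.eventually (gt_mem_nhds hδ), hb.eventually_ge_atTop (C * (2 * C + 3)),
    eventually_ge_atTop 4] with m h1 h2 h3
  rintro b R ⟨hdeg, hpair, hT⟩
  have hmr : (4 : ℝ) ≤ m := by exact_mod_cast h3
  have hb2 : 0 < b2 m := by
    have : 0 < C * (2 * C + 3) := by positivity
    linarith
  by_cases hno : ∀ y, ∃ z, ¬ R z y
  · have h4 := core (by omega) R hT ⌊C * b2 m⌋₊ (fun u v huv => by
      rw [Nat.le_floor_iff (by positivity)]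
      exact (hpair u v huv).2) hno
    have h5 : (m : ℝ) ≤ 2 + (C * b2 m) * (C * b2 m) := by
      have h6 : (m : ℝ) ≤ 2 + (⌊C * b2 m⌋₊ : ℝ) * (⌊C * b2 m⌋₊ : ℝ) := by exact_mod_cast h4
      have h7 : (⌊C * b2 m⌋₊ : ℝ) ≤ C * b2 m := Nat.floor_le (by positivity)
      have h8 : (0 : ℝ) ≤ (⌊C * b2 m⌋₊ : ℝ) := by positivity
      nlinarith
    have hs : 0 < Real.sqrt m := Real.sqrt_pos.2 (by linarith)
    have hs2 : Real.sqrt m ^ 2 = m := Real.sq_sqrt (by linarith)
    rw [div_lt_iff₀ hs] at h1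
    have h6 : C * b2 m < Real.sqrt m / 2 := by
      calc C * b2 m < C * (1 / (2 * C) * Real.sqrt m) := by
            exact mul_lt_mul_of_pos_left h1 hCpos
        _ = Real.sqrt m / 2 := by field_simp
    have h7 : (C * b2 m) * (C * b2 m) < (Real.sqrt m / 2) * (Real.sqrt m / 2) :=
      mul_self_lt_mul_self (by positivity) h6
    nlinarith
  · push Not at hno
    obtain ⟨y0, hy0⟩ := hno
    have hfl : ∀ u v, u ≠ v → (⌊2 * C⌋₊ + 1) + 1 ≤ (Nb R u ∩ Nb R v).ncard := by
      intro u v huv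
      have h4 := (hpair u v huv).1
      have h5 : 2 * C + 3 ≤ b2 m / C := by
        rw [le_div_iff₀ hCpos]
        linarith
      have h6 : (⌊2 * C⌋₊ : ℝ) ≤ 2 * C := Nat.floor_le (by positivity)
      have h7 : (((⌊2 * C⌋₊ + 1) + 1 : ℕ) : ℝ) ≤ ((Nb R u ∩ Nb R v).ncard : ℝ) := by
        push_cast
        linarith
      exact_mod_cast h7
    have h4 := full R hT _ hfl y0 hy0 ⟨0, by omega⟩
    have h5 := hdeg ⟨0, by omega⟩
    have h6 : (((m - 1) * (⌊2 * C⌋₊ + 1) : ℕ) : ℝ) ≤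
        ((Nb R ⟨0, by omega⟩).ncard : ℝ) := by exact_mod_cast h4
    rw [Nat.cast_mul, Nat.cast_sub (by omega)] at h6
    push_cast at h6
    have h7 : 2 * C < (⌊2 * C⌋₊ : ℝ) + 1 := Nat.lt_floor_add_one _
    nlinarith

/-- For no function `b2` with `1 ≪ b2 ≪ √m` is there a sequence of graphs admissible for `b2`.
Moreover the obstruction is robust: for every constant `C`, for all large `m` there is not even a
single graph whose degrees, codegrees are correct up to the factor `C` and whose triples have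
exactly one common neighbour. -/
theorem result (b2 : ℕ → ℝ) (hb : Tendsto b2 atTop atTop)
    (hb' : Tendsto (fun m : ℕ => b2 m / Real.sqrt m) atTop (𝓝 0)) :
    (¬ ∃ (B : ℕ → ℕ) (R : ∀ m, Fin m → Fin (B m) → Prop), Admissible b2 B R) ∧
    (∀ C : ℝ, 1 ≤ C → ∀ᶠ m : ℕ in atTop, ∀ (b : ℕ) (R : Fin m → Fin b → Prop),
      ¬ ((∀ u, ((Nb R u).ncard : ℝ) ≤ C * m) ∧
        (∀ u v, u ≠ v → b2 m / C ≤ ((Nb R u ∩ Nb R v).ncard : ℝ) ∧
          ((Nb R u ∩ Nb R v).ncard : ℝ) ≤ C * b2 m) ∧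
        (∀ u v w, u ≠ v → u ≠ w → v ≠ w → (Nb R u ∩ Nb R v ∩ Nb R w).ncard = 1))) := by
  refine ⟨?_, fun C hC => strong b2 hb hb' C hC⟩
  rintro ⟨B, R, h⟩
  have hs := strong b2 hb hb' 2 (by norm_num)
  obtain ⟨m, h1, h2, h3, h4, h5, h6⟩ := (hs.and ((h.deg (1 / 2) (by norm_num)).and
    ((h.pair (1 / 2) (by norm_num)).and (h.triple.and ((hb.eventually_gt_atTop 0).and
      (eventually_gt_atTop 0)))))).exists
  refine h1 (B m) (R m) ⟨fun u => ?_, fun u v huv => ?_, h4⟩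
  · have hm : (0 : ℝ) < m := by exact_mod_cast h6
    have h7 := (abs_le.1 (h2 u)).2
    have h8 : ((Nb (R m) u).ncard : ℝ) / m ≤ 2 := by linarith
    rwa [div_le_iff₀ hm] at h8
  · have h7 := abs_le.1 (h3 u v huv)
    constructor
    · have h8 : 1 / 2 ≤ ((Nb (R m) u ∩ Nb (R m) v).ncard : ℝ) / b2 m := by linarith
      rw [le_div_iff₀ h5] at h8
      linarith
    · have h8 : ((Nb (R m) u ∩ Nb (R m) v).ncard : ℝ) / b2 m ≤ 2 := by linarith
      rwa [div_le_iff₀ h5] at h8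

end Pool.Agent.Results.MP_8b0535_co.NoAdmissible
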